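import Pool.Agent.Helper80.RV.Defs
import Pool.Agent.Helper4.RV.GJ
import Pool.Agent.Helper68.RV.COIx

/-!
# RX, block RX10b: the inequality along the ultrafilter, with classes of cosets, the divisors depend on the place

As `core_ew` of `Pool/Agent/Helper80/LD/COEw.lean` (helper80), from `core_irlx`.
-/

set_option autoImplicit false
set_option linter.unusedSectionVars false

namespace Pool.Agent.SQ.RV

open NumberField Filter Module MvPolynomial
open Pool.Agent.Helper64.Vojta (Pl nv sn above)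
open Pool.Agent.V2
open Pool.Agent.Chart (fld dg crd hgt)

universe u

section

variable {k : Type u} [Field k] [NumberField k] {G : Type} [Group G] [Fintype G]

/-- the limits exist -/
private theorem lim_rx (D : SqG k G) (F : ℕ → ℝ) : ∃ L : ℝ, (∃ C : ℝ, ∀ a, -C ≤ F a) →
    (∃ K : ℝ, ∀ᶠ a in (D.U : Filter ℕ), F a ≤ K * D.H a) → 0 ≤ L ∧ LB D F L ∧ UB D F L := by
  by_cases h : (∃ C : ℝ, ∀ a, -C ≤ F a) ∧ ∃ K : ℝ, ∀ᶠ a in (D.U : Filter ℕ), F a ≤ K * D.H a
  swap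
  · exact ⟨0, fun h1 h2 => absurd ⟨h1, h2⟩ h⟩
  obtain ⟨⟨C, hC⟩, K, hK⟩ := h
  have h0 : ∀ᶠ a in (D.U : Filter ℕ), 0 ≤ max 0 (F a) / D.H a ∧ max 0 (F a) / D.H a ≤ max 0 K := by
    filter_upwards [hK, D.H1.eventually_gt_atTop 0] with a h1 h2
    refine ⟨div_nonneg (le_max_left _ _) h2.le, ?_⟩
    rw [div_le_iff₀ h2]
    refine max_le (mul_nonneg (le_max_left _ _) h2.le) (h1.trans ?_)
    exact mul_le_mul_of_nonneg_right (le_max_right _ _) h2.le
  have h1 : (Ultrafilter.map (fun a => max 0 (F a) / D.H a) D.U : Filter ℝ) ≤ Filter.principal (Set.Icc 0 (max 0 K)) := by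
    rw [Ultrafilter.coe_map, le_principal_iff, mem_map]
    exact h0
  obtain ⟨L, hL, h2⟩ := isCompact_Icc.ultrafilter_le_nhds (Ultrafilter.map (fun a => max 0 (F a) / D.H a) D.U) h1
  have hT : Tendsto (fun a => max 0 (F a) / D.H a) (D.U : Filter ℕ) (nhds L) := h2
  have hclose : ∀ η : ℝ, 0 < η → ∀ᶠ a in (D.U : Filter ℕ), (L - η) * D.H a ≤ max 0 (F a) ∧ max 0 (F a) ≤ (L + η) * D.H a := by
    intro η hη
    filter_upwards [hT.eventually (Metric.ball_mem_nhds L hη), D.H1.eventually_gt_atTop 0] with a h3 h4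
    rw [Real.dist_eq, abs_lt] at h3
    constructor
    · rw [← le_div_iff₀ h4]
      linarith
    · rw [← div_le_iff₀ h4]
      linarith
  refine ⟨L, fun _ _ => ⟨hL.1, fun η hη => ?_, fun η hη => ?_⟩⟩
  · filter_upwards [hclose (η / 2) (half_pos hη), D.H1.eventually_ge_atTop (max 0 C / (η / 2))] with a h3 h4
    rw [div_le_iff₀ (half_pos hη)] at h4
    have h5 : max 0 (F a) ≤ F a + max 0 C := by
      rcases max_cases 0 (F a) with ⟨h, _⟩ | ⟨h, _⟩ <;> rw [h]
      · have := hC a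
        have := le_max_right 0 C
        linarith
      · have := le_max_left 0 C
        linarith
    have h6 : (L - η) * D.H a = (L - η / 2) * D.H a - D.H a * (η / 2) := by ring
    rw [h6]
    linarith [h3.1]
  · filter_upwards [hclose η hη] with a h3
    exact (le_max_right _ _).trans h3.2

/-- the local values are bounded by the height -/
private theorem up_rx {N e : ℕ} {D : SqG k G} (y : ∀ a, Fin (N + 1) → D.L a) (hy : Ptg D y) (d : Fin e → ℕ)
    (f : Fin e → MvPolynomial (Fin (N + 1)) k) (hf : ∀ j, (f j).IsHomogeneous (d j))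
    (hyf : ∀ a, ∃ j, aeval (y a) (f j) ≠ 0) (v : Pl k) (g : G) :
    (∃ C : ℝ, ∀ a, -C ≤ gamJ (D.s a) (D.N a) (y a) d f v g) ∧
    ∃ K : ℝ, ∀ᶠ a in (D.U : Filter ℕ), gamJ (D.s a) (D.N a) (y a) d f v g ≤ K * D.H a := by
  obtain ⟨C2, hC2, h2⟩ := gamJ_ge G d f hf {v}
  obtain ⟨C1, -, h1⟩ := gamJ_sum G d f hf {v}
  have hlow : ∀ a g, -C2 ≤ gamJ (D.s a) (D.N a) (y a) d f v g := fun a g =>
    h2 (D.L a) (D.s a) (D.N a) (D.qs a) (y a) (hy.1 a) (hyf a) v (Finset.mem_singleton_self v) g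
  refine ⟨⟨C2, fun a => hlow a g⟩, (∑ j, d j : ℕ) + 1, ?_⟩
  filter_upwards [D.H1.eventually_ge_atTop (C1 + Fintype.card G * C2)] with a ha
  have h3 := h1 (D.L a) (D.s a) (D.N a) (D.qs a) (y a) (hy.1 a) (hyf a)
  rw [← hy.2 a, Finset.sum_singleton] at h3
  have h5 : gamJ (D.s a) (D.N a) (y a) d f v g + C2 ≤ ∑ g, (gamJ (D.s a) (D.N a) (y a) d f v g + C2) :=
    Finset.single_le_sum (f := fun g => gamJ (D.s a) (D.N a) (y a) d f v g + C2)
      (fun g _ => by linarith [hlow a g]) (Finset.mem_univ g)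
  rw [Finset.sum_add_distrib, Finset.sum_const, Finset.card_univ, nsmul_eq_mul] at h5
  linarith

private theorem ub_zero {D : SqG k G} : UB D (fun _ => 0) 0 := by
  intro η hη
  filter_upwards [D.H1.eventually_gt_atTop 0] with a h
  rw [zero_add]
  exact (mul_pos hη h).le

private theorem ub_add {D : SqG k G} {F F' : ℕ → ℝ} {L L' : ℝ} (h : UB D F L) (h' : UB D F' L') :
    UB D (fun a => F a + F' a) (L + L') := by
  intro η hη
  filter_upwards [h (η / 2) (half_pos hη), h' (η / 2) (half_pos hη)] with a h1 h2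
  have h3 : (L + L' + η) * D.H a = (L + η / 2) * D.H a + (L' + η / 2) * D.H a := by ring
  rw [h3]
  exact add_le_add h1 h2

private theorem ub_sum {D : SqG k G} {ι : Type*} (s : Finset ι) (F : ι → ℕ → ℝ) (L : ι → ℝ) (h : ∀ i ∈ s, UB D (F i) (L i)) :
    UB D (fun a => ∑ i ∈ s, F i a) (∑ i ∈ s, L i) := by
  classical
  induction s using Finset.induction_on with
  | empty =>
    simp only [Finset.sum_empty]
    exact ub_zero
  | insert i s hi ih =>
    simp only [Finset.sum_insert hi]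
    exact ub_add (h i (Finset.mem_insert_self _ _)) (ih fun j hj => h j (Finset.mem_insert_of_mem hj))

private theorem ub_mul {D : SqG k G} {F : ℕ → ℝ} {L c : ℝ} (hc : 0 ≤ c) (h : UB D F L) : UB D (fun a => c * F a) (c * L) := by
  rcases hc.eq_or_lt with rfl | hc
  · simp only [zero_mul]
    exact ub_zero
  · intro η hη
    filter_upwards [h (η / c) (div_pos hη hc)] with a h1
    have h2 : (c * L + η) * D.H a = c * ((L + η / c) * D.H a) := by
      field_simp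
    rw [h2]
    exact mul_le_mul_of_nonneg_left h1 hc.le

end

/-- RX10b -/
theorem core_erlx {k : Type u} [Field k] [NumberField k] {N q e : ℕ} (P : Ideal (MvPolynomial (Fin (N + 1)) k)) [hPp : P.IsPrime]
    (hP : ∀ p ∈ P, ∀ m, homogeneousComponent m p ∈ P) (d : Fin q → Fin e → ℕ)
    (f : Fin q → Fin e → MvPolynomial (Fin (N + 1)) k) (hf : ∀ i j, (f i j).IsHomogeneous (d i j)) {Ξ : Type} [Fintype Ξ]
    (γ θ : Ξ → Fin q → ℝ) (hγ : ∀ ξ i, 0 ≤ γ ξ i) (hθ : ∀ ξ i, 0 ≤ θ ξ i)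
    (hγθ : ∀ ξ i, ∀ᶠ m : ℕ in atTop, γ ξ i * (m * hilb P m) ≤
      ∑ x ∈ Finset.range ⌊θ ξ i * m⌋₊, (dimf P (sat (P ⊔ idl f i ^ (x + 1))) m : ℝ))
    (ξ₁ : Ξ) {A₀ : ℝ} (hA : 0 < A₀) (hA₁ : ∀ i, A₀ ≤ γ ξ₁ i) {ε : ℝ} (hε : 0 < ε) :
    ∃ Q : MvPolynomial (Fin (N + 1)) k, Q ∉ P ∧ (∃ e, Q.IsHomogeneous e) ∧
      ∀ {G : Type} [Group G] [Fintype G] {D : SqG k G} (y : ∀ a, Fin (N + 1) → D.L a), Ptg D y →
        (∀ a, ∀ p ∈ P, aeval (y a) p = 0) → (∀ a, aeval (y a) Q ≠ 0) →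
        ∀ (S : Finset (Pl k)) (T : Pl k → G → Finset (Fin q)), (∀ v ∈ S, ∀ g, GenPos P (idl f) (T v g)) →
        (∀ a, ∀ i, ∃ j, aeval (y a) (f i j) ≠ 0) →
        ∀ (Hs : Subgroup G), (∀ a, ∀ h ∈ Hs, ∀ j, D.s a h (y a j) = y a j) →
          (∀ v ∈ S, ∀ g, ∀ h ∈ Hs, T v (g * h) = T v g) → ∀ (g₁ : Pl k → G)
          (Cv Dv : Pl k → Finset G),
          (∀ a, ∀ v ∈ S, ∀ u ∈ Cv v, ∀ z : D.L a, (∀ h ∈ Hs, D.s a h z = z) →
            D.N a v (D.s a (u * g₁ v) z) = D.N a v (D.s a (g₁ v) z)) →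
          (∀ a, ∀ v ∈ S, ∀ u ∈ Dv v, ∀ (g : G) (z : D.L a), (∀ h ∈ Hs, D.s a h z = z) →
            D.N a v (D.s a (u * g) z) = D.N a v (D.s a g z)) →
          ∀ {r' : ℕ} (ρ : Fin r' → G), (∀ g, ∃! j, (ρ j)⁻¹ * g ∈ Hs) →
          ∀ (Rp : Pl k → Finset (Fin r')) (cl : Pl k → Fin r' → Fin r') (ξ : Pl k → Fin r' → Ξ),
          (∀ v ∈ S, ∀ j, cl v j ∈ Rp v ∧ ξ v (cl v j) = ξ v j ∧ T v (ρ (cl v j)) = T v (ρ j)) →
          (∀ v ∈ S, ∀ j ∈ Rp v, ∀ i, A₀ ≤ γ (ξ v j) i -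
            (1 - ((Finset.univ.filter fun j' => cl v j' = j).card : ℝ) / r') * θ (ξ v j) i) →
          (∀ a, ∀ v ∈ S, ∀ j, ∀ z : D.L a, (∀ h ∈ Hs, D.s a h z = z) →
            D.N a v (D.s a (ρ (cl v j)) z) = D.N a v (D.s a (ρ j) z)) → ∀ ty : Pl k → Fin 3,
          ∀ᶠ a in (D.U : Filter ℕ), ∑ v ∈ S,
            (if ty v = 0 then (Fintype.card G : ℝ) ^ 2 * ∑ j ∈ Rp v, ∑ i ∈ T v (ρ j), ((γ (ξ v j) i -
                (1 - ((Finset.univ.filter fun j' => cl v j' = j).card : ℝ) / r') * θ (ξ v j) i) *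
                gamJ (D.s a) (D.N a) (y a) (d i) (f i) v (ρ j))
              else if ty v = 1 then (Cv v).card * Nat.card Hs *
                ∑ i ∈ T v (g₁ v), γ ξ₁ i * gamJ (D.s a) (D.N a) (y a) (d i) (f i) v (g₁ v)
              else (Dv v).card * ∑ g, ∑ i ∈ T v g, γ ξ₁ i * gamJ (D.s a) (D.N a) (y a) (d i) (f i) v g) ≤
            Fintype.card G * (1 + ε) * D.H a := by
  classical
  obtain ⟨u, hu⟩ : ∃ u : ℝ, u = 1 / (1 + ε / 2) := ⟨_, rfl⟩
  have hu0 : 0 < u := by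
    rw [hu]
    positivity
  have hu1 : u < 1 := by
    rw [hu, div_lt_one (by positivity)]
    linarith
  have hud : u * (1 + ε / 2) = 1 := by
    rw [hu]
    field_simp
  obtain ⟨δ, hδ⟩ : ∃ δ : ℝ, δ = (1 - u) * A₀ := ⟨_, rfl⟩
  have hδ0 : 0 < δ := by
    rw [hδ]
    exact mul_pos (by linarith) hA
  have hδA : ∀ A : ℝ, A₀ ≤ A → u * A ≤ A - δ := by
    intro A h
    have : (1 - u) * A₀ ≤ (1 - u) * A := mul_le_mul_of_nonneg_left h (by linarith)
    rw [hδ]
    linarith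
  obtain ⟨Q, hQ, hQh, hcore⟩ := core_irlx P hP d f hf γ θ hγ hθ hγθ ξ₁ hδ0
  refine ⟨Q, hQ, hQh, ?_⟩
  intro G _ _ D y hy hyI hyQ S T hgp hyf
  choose Lf hLf using fun F => lim_rx D F
  obtain ⟨L, hLd⟩ : ∃ L : Pl k → G → Fin q → ℝ,
      L = fun v g i => Lf fun a => gamJ (D.s a) (D.N a) (y a) (d i) (f i) v g := ⟨_, rfl⟩
  have hL3 : ∀ v g i, 0 ≤ L v g i ∧ LB D (fun a => gamJ (D.s a) (D.N a) (y a) (d i) (f i) v g) (L v g i) ∧
      UB D (fun a => gamJ (D.s a) (D.N a) (y a) (d i) (f i) v g) (L v g i) := by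
    intro v g i
    obtain ⟨h1, h2⟩ := up_rx y hy (d i) (f i) (hf i) (fun a => hyf a i) v g
    rw [hLd]
    exact hLf _ h1 h2
  obtain ⟨Λ, hΛ⟩ : ∃ Λ : Pl k → G → ℝ, Λ = fun v g => ∑ i ∈ T v g, γ ξ₁ i * L v g i := ⟨_, rfl⟩
  have hΛ0 : ∀ v ∈ S, ∀ g, 0 ≤ Λ v g := by
    intro v hv g
    rw [hΛ]
    exact Finset.sum_nonneg fun i hi => mul_nonneg (hγ ξ₁ i) (hL3 v g i).1
  have hΛu : ∀ v ∈ S, ∀ g, UB D (fun a => ∑ i ∈ T v g, γ ξ₁ i * gamJ (D.s a) (D.N a) (y a) (d i) (f i) v g) (Λ v g) := by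
    intro v hv g
    rw [hΛ]
    exact ub_sum _ _ _ fun i hi => ub_mul (hγ ξ₁ i) (hL3 v g i).2.2
  have hΛδ : ∀ v ∈ S, ∀ g, u * Λ v g ≤ ∑ i ∈ T v g, (γ ξ₁ i - δ) * L v g i := by
    intro v hv g
    rw [hΛ, Finset.mul_sum]
    refine Finset.sum_le_sum fun i hi => ?_
    rw [← mul_assoc]
    exact mul_le_mul_of_nonneg_right (hδA _ (hA₁ i)) (hL3 v g i).1
  have h1 := hcore y hy hyI hyQ S T hgp hyf L (fun v hv g i => (hL3 v g i).1)
    (fun v hv g i => (hL3 v g i).2.1)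
  have hc0 : (0 : ℝ) < Fintype.card G := by exact_mod_cast Fintype.card_pos
  intro Hs hH hTH g₁ Cv Dv hCv hDv r' ρ hρ Rp cl ξ hcl hAj hclN ty
  obtain ⟨A', hA'⟩ : ∃ A' : Pl k → Fin r' → Fin q → ℝ, A' = fun v j i => γ (ξ v j) i -
      (1 - ((Finset.univ.filter fun j' => cl v j' = j).card : ℝ) / r') * θ (ξ v j) i := ⟨_, rfl⟩
  have hA'' : ∀ v j i, γ (ξ v j) i -
      (1 - ((Finset.univ.filter fun j' => cl v j' = j).card : ℝ) / r') * θ (ξ v j) i = A' v j i := fun v j i => by rw [hA']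
  have hAA : ∀ v ∈ S, ∀ j ∈ Rp v, ∀ i, A₀ ≤ A' v j i := fun v hv j hj i => by
    rw [← hA'']
    exact hAj v hv j hj i
  have hA'u : ∀ v ∈ S, ∀ j ∈ Rp v, ∀ i, u * A' v j i ≤ γ (ξ v j) i - δ -
      (1 - ((Finset.univ.filter fun j' => cl v j' = j).card : ℝ) / r') * θ (ξ v j) i := by
    intro v hv j hj i
    refine (hδA _ (hAA v hv j hj i)).trans (le_of_eq ?_)
    rw [← hA'']
    ring
  have hN := h1 Hs hH (fun v => ty v ≠ 0) (fun v => if ty v = 1 then Cv v else Dv v)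
    (fun v => if ty v = 1 then Finset.univ.filter fun g => (g₁ v)⁻¹ * g ∈ Hs else Finset.univ) (by
    intro a v hv hl u' hu' g hg z hz
    have hu2 : u' ∈ (if ty v = 1 then Cv v else Dv v) := hu'
    have hg2 : g ∈ (if ty v = 1 then Finset.univ.filter fun g => (g₁ v)⁻¹ * g ∈ Hs else Finset.univ) := hg
    by_cases h1 : ty v = 1
    · rw [if_pos h1] at hu2 hg2
      have hg' : (g₁ v)⁻¹ * g ∈ Hs := (Finset.mem_filter.1 hg2).2
      have e0 : D.s a g z = D.s a (g₁ v) z := by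
        have e1 : g = g₁ v * ((g₁ v)⁻¹ * g) := (mul_inv_cancel_left _ _).symm
        conv_lhs => rw [e1, map_mul]
        show D.s a (g₁ v) (D.s a ((g₁ v)⁻¹ * g) z) = _
        rw [hz _ hg']
      have e2 : D.s a (u' * g) z = D.s a (u' * g₁ v) z := by
        rw [map_mul, map_mul]
        show D.s a u' (D.s a g z) = D.s a u' (D.s a (g₁ v) z)
        rw [e0]
      rw [e0, e2]
      exact hCv a v hv u' hu2 z hz
    · rw [if_neg h1] at hu2
      exact hDv a v hv u' hu2 g z hz) ρ hρ Rp cl ξ (fun v hv _ j => ⟨(hcl v hv j).1, (hcl v hv j).2.1, (hcl v hv j).2.2, by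
        intro i
        rw [hLd]
        show Lf _ = Lf _
        congr 1
        funext a
        exact gamJ_cl (hH a) fun z hz => hclN a v hv j z hz⟩) (fun a v hv _ j z hz => hclN a v hv j z hz)
  obtain ⟨X, hX⟩ : ∃ X : ℝ, X = ∑ v ∈ S, (if ty v = 0 then
        (Fintype.card G : ℝ) ^ 2 * ∑ j ∈ Rp v, ∑ i ∈ T v (ρ j), A' v j i * L v (ρ j) i
      else if ty v = 1 then (Cv v).card * Nat.card Hs * Λ v (g₁ v)
      else (Dv v).card * ∑ g, Λ v g) := ⟨_, rfl⟩
  have hub : UB D (fun a => ∑ v ∈ S, (if ty v = 0 then (Fintype.card G : ℝ) ^ 2 * ∑ j ∈ Rp v, ∑ i ∈ T v (ρ j), (A' v j i *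
              gamJ (D.s a) (D.N a) (y a) (d i) (f i) v (ρ j))
            else if ty v = 1 then (Cv v).card * Nat.card Hs *
              ∑ i ∈ T v (g₁ v), γ ξ₁ i * gamJ (D.s a) (D.N a) (y a) (d i) (f i) v (g₁ v)
            else (Dv v).card * ∑ g, ∑ i ∈ T v g, γ ξ₁ i * gamJ (D.s a) (D.N a) (y a) (d i) (f i) v g)) X := by
    rw [hX]
    refine ub_sum _ _ _ fun v hv => ?_
    by_cases h0 : ty v = 0
    · simp only [h0, if_true]
      exact ub_mul (by positivity) (ub_sum _ _ _ fun j hj => ub_sum _ _ _ fun i hi =>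
        ub_mul (hA.le.trans (hAA v hv j hj i)) (hL3 v (ρ j) i).2.2)
    · by_cases h1 : ty v = 1
      · simp only [h1, one_ne_zero, if_false, if_true]
        exact ub_mul (mul_nonneg (Nat.cast_nonneg _) (Nat.cast_nonneg _)) (hΛu v hv (g₁ v))
      · simp only [h0, h1, if_false]
        exact ub_mul (Nat.cast_nonneg _) (ub_sum _ _ _ fun g _ => hΛu v hv g)
  have hXN : u * X ≤ Fintype.card G := by
    refine le_trans ?_ hN
    rw [hX, Finset.mul_sum]
    refine Finset.sum_le_sum fun v hv => ?_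
    by_cases h0 : ty v = 0
    · rw [if_pos h0, if_neg (show ¬ ty v ≠ 0 from fun h => h h0), mul_left_comm, Finset.mul_sum]
      refine mul_le_mul_of_nonneg_left (Finset.sum_le_sum fun j hj => ?_) (sq_nonneg (Fintype.card G : ℝ))
      rw [Finset.mul_sum]
      refine Finset.sum_le_sum fun i hi => ?_
      rw [← mul_assoc]
      exact mul_le_mul_of_nonneg_right (hA'u v hv j hj i) (hL3 v (ρ j) i).1
    · rw [if_neg h0, if_pos h0]
      by_cases h1 : ty v = 1
      · have e3 : ∑ g ∈ (if ty v = 1 then Finset.univ.filter fun g => (g₁ v)⁻¹ * g ∈ Hs else Finset.univ),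
            ∑ i ∈ T v g, (γ ξ₁ i - δ) * L v g i = Nat.card Hs * ∑ i ∈ T v (g₁ v), (γ ξ₁ i - δ) * L v (g₁ v) i := by
          rw [if_pos h1]
          have e4 : ∀ g ∈ Finset.univ.filter (fun g => (g₁ v)⁻¹ * g ∈ Hs), ∑ i ∈ T v g, (γ ξ₁ i - δ) * L v g i =
              ∑ i ∈ T v (g₁ v), (γ ξ₁ i - δ) * L v (g₁ v) i := by
            intro g hg
            have hg' : (g₁ v)⁻¹ * g ∈ Hs := (Finset.mem_filter.1 hg).2
            have hTg : T v g = T v (g₁ v) := by
              have h8 := hTH v hv (g₁ v) _ hg'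
              rwa [mul_inv_cancel_left] at h8
            rw [hTg]
            refine Finset.sum_congr rfl fun i _ => ?_
            rw [hLd]
            show (γ ξ₁ i - δ) * Lf _ = (γ ξ₁ i - δ) * Lf _
            congr 2
            funext a
            refine gamJ_cl (hH a) fun z hz => ?_
            have e1 : g = g₁ v * ((g₁ v)⁻¹ * g) := (mul_inv_cancel_left _ _).symm
            conv_lhs => rw [e1, map_mul]
            show D.N a v (D.s a (g₁ v) (D.s a ((g₁ v)⁻¹ * g) z)) = _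
            rw [hz _ hg']
          have e5 : (Finset.univ.filter fun g => (g₁ v)⁻¹ * g ∈ Hs).card = Nat.card Hs := by
            rw [Nat.card_eq_fintype_card, Fintype.card_subtype]
            refine Finset.card_bij' (fun g _ => (g₁ v)⁻¹ * g) (fun h _ => g₁ v * h) ?_ ?_ ?_ ?_
            · intro g hg
              rw [Finset.mem_filter] at hg ⊢
              exact ⟨Finset.mem_univ _, hg.2⟩
            · intro h hh
              rw [Finset.mem_filter] at hh ⊢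
              refine ⟨Finset.mem_univ _, ?_⟩
              rw [inv_mul_cancel_left]
              exact hh.2
            · intro g _
              exact mul_inv_cancel_left _ _
            · intro h _
              exact inv_mul_cancel_left _ _
          rw [Finset.sum_congr rfl e4, Finset.sum_const, nsmul_eq_mul, e5]
        rw [if_pos h1, e3, if_pos h1, mul_left_comm, mul_assoc]
        exact mul_le_mul_of_nonneg_left (mul_le_mul_of_nonneg_left (hΛδ v hv (g₁ v)) (Nat.cast_nonneg _)) (Nat.cast_nonneg _)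
      · rw [if_neg h1, if_neg h1, if_neg h1, mul_left_comm, Finset.mul_sum]
        exact mul_le_mul_of_nonneg_left (Finset.sum_le_sum fun g _ => hΛδ v hv g) (Nat.cast_nonneg _)
  have hXc : X ≤ Fintype.card G * (1 + ε / 2) := by
    refine le_of_mul_le_mul_left (hXN.trans (le_of_eq ?_)) hu0
    rw [mul_left_comm, hud, mul_one]
  simp only [hA'']
  filter_upwards [hub (Fintype.card G * (ε / 2)) (by positivity), D.H1.eventually_gt_atTop 0] with a h3 h4
  refine h3.trans (mul_le_mul_of_nonneg_right ?_ h4.le)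
  linarith

end Pool.Agent.SQ.RV
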