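import Pool.Agent.Helper80.RV.Defs
import Pool.Agent.Helper4.RV.GJ
import Pool.Agent.Helper80.RV.COIrvx

/-!
# RX, block RX10a: the inequality along the ultrafilter for towers, the divisors depend on the place

As `core_e` of `Pool/Agent/Helper68/ZS/COE.lean` (helper68), from `core_irvx`.
-/

set_option autoImplicit false
set_option linter.unusedSectionVars false

namespace Pool.Agent.SQ.RV

open NumberField Filter Module MvPolynomial
open Pool.Agent.Helper64.Vojta (Pl nv sn above)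
open Pool.Agent.V2
open Pool.Agent.Chart (fld dg crd hgt)

universe u

section

variable {k : Type u} [Field k] [NumberField k] {G : Type} [Group G] [Fintype G]

/-- the limits exist -/
private theorem lim_rx (D : SqG k G) (F : ℕ → ℝ) : ∃ L : ℝ, (∃ C : ℝ, ∀ a, -C ≤ F a) →
    (∃ K : ℝ, ∀ᶠ a in (D.U : Filter ℕ), F a ≤ K * D.H a) → 0 ≤ L ∧ LB D F L ∧ UB D F L := by
  by_cases h : (∃ C : ℝ, ∀ a, -C ≤ F a) ∧ ∃ K : ℝ, ∀ᶠ a in (D.U : Filter ℕ), F a ≤ K * D.H a
  swap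
  · exact ⟨0, fun h1 h2 => absurd ⟨h1, h2⟩ h⟩
  obtain ⟨⟨C, hC⟩, K, hK⟩ := h
  have h0 : ∀ᶠ a in (D.U : Filter ℕ), 0 ≤ max 0 (F a) / D.H a ∧ max 0 (F a) / D.H a ≤ max 0 K := by
    filter_upwards [hK, D.H1.eventually_gt_atTop 0] with a h1 h2
    refine ⟨div_nonneg (le_max_left _ _) h2.le, ?_⟩
    rw [div_le_iff₀ h2]
    refine max_le (mul_nonneg (le_max_left _ _) h2.le) (h1.trans ?_)
    exact mul_le_mul_of_nonneg_right (le_max_right _ _) h2.le
  have h1 : (Ultrafilter.map (fun a => max 0 (F a) / D.H a) D.U : Filter ℝ) ≤ Filter.principal (Set.Icc 0 (max 0 K)) := by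
    rw [Ultrafilter.coe_map, le_principal_iff, mem_map]
    exact h0
  obtain ⟨L, hL, h2⟩ := isCompact_Icc.ultrafilter_le_nhds (Ultrafilter.map (fun a => max 0 (F a) / D.H a) D.U) h1
  have hT : Tendsto (fun a => max 0 (F a) / D.H a) (D.U : Filter ℕ) (nhds L) := h2
  have hclose : ∀ η : ℝ, 0 < η → ∀ᶠ a in (D.U : Filter ℕ), (L - η) * D.H a ≤ max 0 (F a) ∧ max 0 (F a) ≤ (L + η) * D.H a := by
    intro η hη
    filter_upwards [hT.eventually (Metric.ball_mem_nhds L hη), D.H1.eventually_gt_atTop 0] with a h3 h4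
    rw [Real.dist_eq, abs_lt] at h3
    constructor
    · rw [← le_div_iff₀ h4]
      linarith
    · rw [← div_le_iff₀ h4]
      linarith
  refine ⟨L, fun _ _ => ⟨hL.1, fun η hη => ?_, fun η hη => ?_⟩⟩
  · filter_upwards [hclose (η / 2) (half_pos hη), D.H1.eventually_ge_atTop (max 0 C / (η / 2))] with a h3 h4
    rw [div_le_iff₀ (half_pos hη)] at h4
    have h5 : max 0 (F a) ≤ F a + max 0 C := by
      rcases max_cases 0 (F a) with ⟨h, _⟩ | ⟨h, _⟩ <;> rw [h]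
      · have := hC a
        have := le_max_right 0 C
        linarith
      · have := le_max_left 0 C
        linarith
    have h6 : (L - η) * D.H a = (L - η / 2) * D.H a - D.H a * (η / 2) := by ring
    rw [h6]
    linarith [h3.1]
  · filter_upwards [hclose η hη] with a h3
    exact (le_max_right _ _).trans h3.2

/-- the local values are bounded by the height -/
private theorem up_rx {N e : ℕ} {D : SqG k G} (y : ∀ a, Fin (N + 1) → D.L a) (hy : Ptg D y) (d : Fin e → ℕ)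
    (f : Fin e → MvPolynomial (Fin (N + 1)) k) (hf : ∀ j, (f j).IsHomogeneous (d j))
    (hyf : ∀ a, ∃ j, aeval (y a) (f j) ≠ 0) (v : Pl k) (g : G) :
    (∃ C : ℝ, ∀ a, -C ≤ gamJ (D.s a) (D.N a) (y a) d f v g) ∧
    ∃ K : ℝ, ∀ᶠ a in (D.U : Filter ℕ), gamJ (D.s a) (D.N a) (y a) d f v g ≤ K * D.H a := by
  obtain ⟨C2, hC2, h2⟩ := gamJ_ge G d f hf {v}
  obtain ⟨C1, -, h1⟩ := gamJ_sum G d f hf {v}
  have hlow : ∀ a g, -C2 ≤ gamJ (D.s a) (D.N a) (y a) d f v g := fun a g =>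
    h2 (D.L a) (D.s a) (D.N a) (D.qs a) (y a) (hy.1 a) (hyf a) v (Finset.mem_singleton_self v) g
  refine ⟨⟨C2, fun a => hlow a g⟩, (∑ j, d j : ℕ) + 1, ?_⟩
  filter_upwards [D.H1.eventually_ge_atTop (C1 + Fintype.card G * C2)] with a ha
  have h3 := h1 (D.L a) (D.s a) (D.N a) (D.qs a) (y a) (hy.1 a) (hyf a)
  rw [← hy.2 a, Finset.sum_singleton] at h3
  have h5 : gamJ (D.s a) (D.N a) (y a) d f v g + C2 ≤ ∑ g, (gamJ (D.s a) (D.N a) (y a) d f v g + C2) :=
    Finset.single_le_sum (f := fun g => gamJ (D.s a) (D.N a) (y a) d f v g + C2)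
      (fun g _ => by linarith [hlow a g]) (Finset.mem_univ g)
  rw [Finset.sum_add_distrib, Finset.sum_const, Finset.card_univ, nsmul_eq_mul] at h5
  linarith

private theorem ub_zero {D : SqG k G} : UB D (fun _ => 0) 0 := by
  intro η hη
  filter_upwards [D.H1.eventually_gt_atTop 0] with a h
  rw [zero_add]
  exact (mul_pos hη h).le

private theorem ub_add {D : SqG k G} {F F' : ℕ → ℝ} {L L' : ℝ} (h : UB D F L) (h' : UB D F' L') :
    UB D (fun a => F a + F' a) (L + L') := by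
  intro η hη
  filter_upwards [h (η / 2) (half_pos hη), h' (η / 2) (half_pos hη)] with a h1 h2
  have h3 : (L + L' + η) * D.H a = (L + η / 2) * D.H a + (L' + η / 2) * D.H a := by ring
  rw [h3]
  exact add_le_add h1 h2

private theorem ub_sum {D : SqG k G} {ι : Type*} (s : Finset ι) (F : ι → ℕ → ℝ) (L : ι → ℝ) (h : ∀ i ∈ s, UB D (F i) (L i)) :
    UB D (fun a => ∑ i ∈ s, F i a) (∑ i ∈ s, L i) := by
  classical
  induction s using Finset.induction_on with
  | empty =>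
    simp only [Finset.sum_empty]
    exact ub_zero
  | insert i s hi ih =>
    simp only [Finset.sum_insert hi]
    exact ub_add (h i (Finset.mem_insert_self _ _)) (ih fun j hj => h j (Finset.mem_insert_of_mem hj))

private theorem ub_mul {D : SqG k G} {F : ℕ → ℝ} {L c : ℝ} (hc : 0 ≤ c) (h : UB D F L) : UB D (fun a => c * F a) (c * L) := by
  rcases hc.eq_or_lt with rfl | hc
  · simp only [zero_mul]
    exact ub_zero
  · intro η hη
    filter_upwards [h (η / c) (div_pos hη hc)] with a h1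
    have h2 : (c * L + η) * D.H a = c * ((L + η / c) * D.H a) := by
      field_simp
    rw [h2]
    exact mul_le_mul_of_nonneg_left h1 hc.le

end

/-- RX10a -/
theorem core_ervx {k : Type u} [Field k] [NumberField k] {N q e : ℕ} (P : Ideal (MvPolynomial (Fin (N + 1)) k)) [hPp : P.IsPrime]
    (hP : ∀ p ∈ P, ∀ m, homogeneousComponent m p ∈ P) (d : Fin q → Fin e → ℕ)
    (f : Fin q → Fin e → MvPolynomial (Fin (N + 1)) k) (hf : ∀ i j, (f i j).IsHomogeneous (d i j)) (β : Fin q → ℝ)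
    (hβ0 : ∀ i, 0 < β i) (hβ : ∀ i, ∀ δ : ℝ, 0 < δ → ∀ᶠ m : ℕ in atTop, ∃ K : ℕ,
      (β i - δ) * (m * hilb P m) ≤ ∑ x ∈ Finset.range K, (dimf P (sat (P ⊔ idl f i ^ (x + 1))) m : ℝ))
    {ε : ℝ} (hε : 0 < ε) :
    ∃ Q : MvPolynomial (Fin (N + 1)) k, Q ∉ P ∧ (∃ e, Q.IsHomogeneous e) ∧
      ∀ {G : Type} [Group G] [Fintype G] {D : SqG k G} (y : ∀ a, Fin (N + 1) → D.L a), Ptg D y →
        (∀ a, ∀ p ∈ P, aeval (y a) p = 0) → (∀ a, aeval (y a) Q ≠ 0) →
        ∀ (S : Finset (Pl k)) (T : Pl k → G → Finset (Fin q)), (∀ v ∈ S, ∀ g, GenPos P (idl f) (T v g)) →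
        (∀ a, ∀ i, ∃ j, aeval (y a) (f i j) ≠ 0) →
        ∀ (H : Subgroup G), H.IsSubnormal → (∀ n, ∀ h ∈ H, ∀ j, D.s n h (y n j) = y n j) →
          ∀ᶠ a in (D.U : Filter ℕ), ∑ v ∈ S, ∑ g, ∑ i ∈ T v g, β i * gamJ (D.s a) (D.N a) (y a) (d i) (f i) v g ≤
            H.index * (1 + ε) * D.H a := by
  classical
  obtain ⟨u, hu⟩ : ∃ u : ℝ, u = 1 / (1 + ε / 2) := ⟨_, rfl⟩
  have hu0 : 0 < u := by
    rw [hu]
    positivity
  have hu1 : u < 1 := by
    rw [hu, div_lt_one (by positivity)]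
    linarith
  have hud : u * (1 + ε / 2) = 1 := by
    rw [hu]
    field_simp
  obtain ⟨Q, hQ, hQh, hcore⟩ := core_irvx P hP d f hf β hβ0 hβ (ε := 1 - u) (by linarith)
  refine ⟨Q, hQ, hQh, ?_⟩
  intro G _ _ D y hy hyI hyQ S T hgp hyf
  have e1u : (1 : ℝ) - (1 - u) = u := by ring
  choose Lf hLf using fun F => lim_rx D F
  obtain ⟨L, hLd⟩ : ∃ L : Pl k → G → Fin q → ℝ,
      L = fun v g i => Lf fun a => gamJ (D.s a) (D.N a) (y a) (d i) (f i) v g := ⟨_, rfl⟩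
  have hL3 : ∀ v g i, 0 ≤ L v g i ∧ LB D (fun a => gamJ (D.s a) (D.N a) (y a) (d i) (f i) v g) (L v g i) ∧
      UB D (fun a => gamJ (D.s a) (D.N a) (y a) (d i) (f i) v g) (L v g i) := by
    intro v g i
    obtain ⟨h1, h2⟩ := up_rx y hy (d i) (f i) (hf i) (fun a => hyf a i) v g
    rw [hLd]
    exact hLf _ h1 h2
  obtain ⟨Λ, hΛ⟩ : ∃ Λ : Pl k → G → ℝ, Λ = fun v g => ∑ i ∈ T v g, β i * L v g i := ⟨_, rfl⟩
  have hΛv : ∀ v g, ∑ i ∈ T v g, β i * L v g i = Λ v g := fun v g => by rw [hΛ]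
  have hΛ0 : ∀ v ∈ S, ∀ g, 0 ≤ Λ v g := by
    intro v hv g
    rw [hΛ]
    exact Finset.sum_nonneg fun i hi => mul_nonneg (hβ0 i).le (hL3 v g i).1
  have hΛu : ∀ v ∈ S, ∀ g, UB D (fun a => ∑ i ∈ T v g, β i * gamJ (D.s a) (D.N a) (y a) (d i) (f i) v g) (Λ v g) := by
    intro v hv g
    rw [hΛ]
    exact ub_sum _ _ _ fun i hi => ub_mul (hβ0 i).le (hL3 v g i).2.2
  have h1 := hcore y hy hyI hyQ S T hgp hyf L (fun v hv g i => (hL3 v g i).1)
    (fun v hv g i => (hL3 v g i).2.1)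
  simp only [e1u, hΛv] at h1
  have hc0 : (0 : ℝ) < Fintype.card G := by exact_mod_cast Fintype.card_pos
  intro H hHs hyH
  have hN := h1 H hHs hyH
  obtain ⟨X, hX⟩ : ∃ X : ℝ, X = ∑ v ∈ S, ∑ g, Λ v g := ⟨_, rfl⟩
  have hub : UB D (fun a => ∑ v ∈ S, ∑ g, ∑ i ∈ T v g, β i * gamJ (D.s a) (D.N a) (y a) (d i) (f i) v g) X := by
    rw [hX]
    exact ub_sum _ _ _ fun v hv => ub_sum _ _ _ fun g _ => hΛu v hv g
  have hXN : u * X ≤ H.index := by
    refine le_trans (le_of_eq ?_) hN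
    rw [hX, Finset.mul_sum]
    exact Finset.sum_congr rfl fun v hv => Finset.mul_sum _ _ _
  have hXc : X ≤ H.index * (1 + ε / 2) := by
    refine le_of_mul_le_mul_left (hXN.trans (le_of_eq ?_)) hu0
    rw [mul_left_comm, hud, mul_one]
  have hI0 : (0 : ℝ) < H.index := by
    have : H.index ≠ 0 := Subgroup.index_ne_zero_of_finite
    exact_mod_cast Nat.pos_of_ne_zero this
  filter_upwards [hub (H.index * (ε / 2)) (by positivity), D.H1.eventually_gt_atTop 0] with a h3 h4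
  refine h3.trans (mul_le_mul_of_nonneg_right ?_ h4.le)
  linarith

end Pool.Agent.SQ.RV
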