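import Pool.Agent.Helper67.RV.COErvx
import Pool.Agent.Helper67.RV.COErlx

/-!
# RX, blocks RX10a (`core_ervx`) and RX10b (`core_erlx`)
-/
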